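import Mathlib

/-!
# Mixing of a symmetric walk given by involutions (part MIX for MP_d8fb5e_lc)
-/

set_option autoImplicit false

namespace Pool.Agent.Helper80ST

open Finset

variable {α : Type} [DecidableEq α]

omit [DecidableEq α] in
/-- A sum over `S` is invariant under an involution of `S`. -/
theorem sum_inv {S : Finset α} {τ : α → α} (h : ∀ y ∈ S, τ y ∈ S ∧ τ (τ y) = y) (g : α → ℝ) :
    ∑ y ∈ S, g (τ y) = ∑ y ∈ S, g y := by
  refine Finset.sum_nbij' τ τ ?_ ?_ ?_ ?_ ?_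
  · exact fun y hy => (h y hy).1
  · exact fun y hy => (h y hy).1
  · exact fun y hy => (h y hy).2
  · exact fun y hy => (h y hy).2
  · exact fun y _ => rfl

omit [DecidableEq α] in
/-- The Dirichlet form of an involution. -/
theorem dirichlet {S : Finset α} {τ : α → α} (h : ∀ y ∈ S, τ y ∈ S ∧ τ (τ y) = y) (f : α → ℝ) :
    ∑ y ∈ S, f y * (f y - f (τ y)) = (1 / 2) * ∑ y ∈ S, (f (τ y) - f y) ^ 2 := by
  have h1 : ∑ y ∈ S, f (τ y) ^ 2 = ∑ y ∈ S, f y ^ 2 := sum_inv h (fun y => f y ^ 2)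
  have h2 : ∑ y ∈ S, (f (τ y) - f y) ^ 2
      = ∑ y ∈ S, f (τ y) ^ 2 + ∑ y ∈ S, f y ^ 2 - 2 * ∑ y ∈ S, f y * f (τ y) := by
    rw [Finset.mul_sum, ← Finset.sum_add_distrib, ← Finset.sum_sub_distrib]
    exact Finset.sum_congr rfl fun y _ => by ring
  have h3 : ∑ y ∈ S, f y * (f y - f (τ y)) = ∑ y ∈ S, f y ^ 2 - ∑ y ∈ S, f y * f (τ y) := by
    rw [← Finset.sum_sub_distrib]
    exact Finset.sum_congr rfl fun y _ => by ring
  rw [h3, h2, h1]; ring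

omit [DecidableEq α] in
/-- One step of the walk contracts the mean zero functions. -/
theorem step {S : Finset α} {b : ℕ} {σ : ℕ → α → α} (hb : 0 < b)
    (hσ : ∀ v < b, ∀ y ∈ S, σ v y ∈ S ∧ σ v (σ v y) = y)
    (hV : ∃ V : Finset ℕ, 2 * V.card ≤ b ∧ ∀ v < b, v ∉ V → ∀ y ∈ S, σ v y = y)
    (gap : ∀ f : α → ℝ, ∑ y ∈ S, f y = 0 →
      4 * ∑ y ∈ S, f y ^ 2 ≤ ∑ y ∈ S, ∑ v ∈ range b, (f (σ v y) - f y) ^ 2)
    {f g : α → ℝ} (hg : ∀ y ∈ S, g y = (∑ v ∈ range b, f (σ v y)) / b)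
    (hf : ∑ y ∈ S, f y = 0) :
    ∑ y ∈ S, g y = 0 ∧ ∑ y ∈ S, g y ^ 2 ≤ (1 - 2 / (b : ℝ)) * ∑ y ∈ S, f y ^ 2 := by
  obtain ⟨V, hV1, hV2⟩ := hV
  have hb' : (0 : ℝ) < b := by exact_mod_cast hb
  have hb0 : (b : ℝ) ≠ 0 := hb'.ne'
  set D : ℝ := ∑ y ∈ S, ∑ v ∈ range b, (f (σ v y) - f y) ^ 2 with hD
  -- the difference
  have hG : ∀ y ∈ S, f y - g y = (∑ v ∈ range b, (f y - f (σ v y))) / b := by
    intro y hy
    rw [hg y hy, Finset.sum_sub_distrib, Finset.sum_const, Finset.card_range, nsmul_eq_mul,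
      sub_div, mul_div_cancel_left₀ _ hb0]
  constructor
  · rw [Finset.sum_congr rfl hg, ← Finset.sum_div, Finset.sum_comm]
    rw [Finset.sum_congr rfl fun v hv => sum_inv (hσ v (Finset.mem_range.1 hv)) f]
    simp [hf]
  -- inner product of `f` and `f - g`
  have hin : ∑ y ∈ S, f y * (f y - g y) = D / (2 * b) := by
    have h1 : ∑ y ∈ S, f y * (f y - g y)
        = (∑ v ∈ range b, ∑ y ∈ S, f y * (f y - f (σ v y))) / b := by
      rw [Finset.sum_comm, Finset.sum_div]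
      refine Finset.sum_congr rfl fun y hy => ?_
      rw [hG y hy, ← mul_div_assoc, Finset.mul_sum]
    have h2 : D = ∑ v ∈ range b, ∑ y ∈ S, (f (σ v y) - f y) ^ 2 := by
      rw [hD, Finset.sum_comm]
    rw [h1, Finset.sum_congr rfl fun v hv => dirichlet (hσ v (Finset.mem_range.1 hv)) f,
      ← Finset.mul_sum, ← h2]
    field_simp
  -- square of `f - g`
  have hsq : ∑ y ∈ S, (f y - g y) ^ 2 ≤ D / (2 * b) := by
    have h1 : ∀ y ∈ S, (f y - g y) ^ 2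
        ≤ (∑ v ∈ range b, (f (σ v y) - f y) ^ 2) / (2 * b) := by
      intro y hy
      rw [hG y hy]
      have h2 : ∑ v ∈ range b, (f y - f (σ v y)) = ∑ v ∈ range b ∩ V, (f y - f (σ v y)) := by
        symm
        refine Finset.sum_subset Finset.inter_subset_left fun v hv hv' => ?_
        have hvV : v ∉ V := fun h => hv' (Finset.mem_inter.2 ⟨hv, h⟩)
        rw [hV2 v (Finset.mem_range.1 hv) hvV y hy, sub_self]
      have h3 : (∑ v ∈ range b ∩ V, (f y - f (σ v y))) ^ 2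
          ≤ ((range b ∩ V).card : ℝ) * ∑ v ∈ range b ∩ V, (f y - f (σ v y)) ^ 2 :=
        sq_sum_le_card_mul_sum_sq
      have h4 : ∑ v ∈ range b ∩ V, (f y - f (σ v y)) ^ 2
          ≤ ∑ v ∈ range b, (f (σ v y) - f y) ^ 2 := by
        have : ∑ v ∈ range b, (f (σ v y) - f y) ^ 2 = ∑ v ∈ range b, (f y - f (σ v y)) ^ 2 :=
          Finset.sum_congr rfl fun v _ => by ring
        rw [this]
        exact Finset.sum_le_sum_of_subset_of_nonneg Finset.inter_subset_left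
          fun v _ _ => sq_nonneg _
      have h5 : ((range b ∩ V).card : ℝ) ≤ b / 2 := by
        have h6 : (range b ∩ V).card ≤ V.card := Finset.card_le_card Finset.inter_subset_right
        have h7 : 2 * (range b ∩ V).card ≤ b := by omega
        have h8 : (2 : ℝ) * ((range b ∩ V).card : ℝ) ≤ b := by exact_mod_cast h7
        linarith
      have h9 : 0 ≤ ∑ v ∈ range b, (f (σ v y) - f y) ^ 2 :=
        Finset.sum_nonneg fun v _ => sq_nonneg _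
      have h10 : (∑ v ∈ range b ∩ V, (f y - f (σ v y))) ^ 2
          ≤ (b / 2 : ℝ) * ∑ v ∈ range b, (f (σ v y) - f y) ^ 2 :=
        h3.trans (mul_le_mul h5 h4 (Finset.sum_nonneg fun v _ => sq_nonneg _) (by positivity))
      rw [h2, div_pow]
      rw [div_le_div_iff₀ (by positivity) (by positivity)]
      nlinarith [h10, mul_le_mul_of_nonneg_right h10 (by positivity : (0 : ℝ) ≤ 2 * b)]
    calc ∑ y ∈ S, (f y - g y) ^ 2
        ≤ ∑ y ∈ S, (∑ v ∈ range b, (f (σ v y) - f y) ^ 2) / (2 * b) := Finset.sum_le_sum h1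
      _ = D / (2 * b) := by rw [← Finset.sum_div]
  have hgap := gap f hf
  have hexp : ∑ y ∈ S, g y ^ 2 = ∑ y ∈ S, f y ^ 2 - 2 * ∑ y ∈ S, f y * (f y - g y)
      + ∑ y ∈ S, (f y - g y) ^ 2 := by
    rw [Finset.mul_sum, ← Finset.sum_sub_distrib, ← Finset.sum_add_distrib]
    exact Finset.sum_congr rfl fun y _ => by ring
  have h11 : (2 / (b : ℝ)) * ∑ y ∈ S, f y ^ 2 ≤ D / (2 * b) := by
    rw [div_mul_eq_mul_div, div_le_div_iff₀ hb' (by positivity)]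
    nlinarith [hgap]
  rw [hexp, hin]
  have h12 : (1 - 2 / (b : ℝ)) * ∑ y ∈ S, f y ^ 2
      = ∑ y ∈ S, f y ^ 2 - (2 / (b : ℝ)) * ∑ y ∈ S, f y ^ 2 := by ring
  rw [h12]
  linarith

/-- The mixing bound, for `b ≥ 2`. -/
theorem mix (S : Finset α) (b : ℕ) (σ : ℕ → α → α) (hb : 2 ≤ b)
    (hσ : ∀ v < b, ∀ y ∈ S, σ v y ∈ S ∧ σ v (σ v y) = y)
    (hV : ∃ V : Finset ℕ, 2 * V.card ≤ b ∧ ∀ v < b, v ∉ V → ∀ y ∈ S, σ v y = y)
    (gap : ∀ f : α → ℝ, ∑ y ∈ S, f y = 0 →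
      4 * ∑ y ∈ S, f y ^ 2 ≤ ∑ y ∈ S, ∑ v ∈ range b, (f (σ v y) - f y) ^ 2)
    (x0 : α) (hx0 : x0 ∈ S) (C : ℕ → α → ℕ) (hC0 : ∀ y ∈ S, C 0 y = if y = x0 then 1 else 0)
    (hC : ∀ k, ∀ y ∈ S, C (k + 1) y = ∑ v ∈ range b, C k (σ v y)) (t : ℕ) (y : α) (hy : y ∈ S) :
    |(C (2 * t) y : ℝ) / (b : ℝ) ^ (2 * t) - 1 / (S.card : ℝ)| ≤ (1 - 2 / (b : ℝ)) ^ t := by
  have hb1 : 0 < b := by omega
  have hb' : (0 : ℝ) < b := by exact_mod_cast hb1
  have hb0 : (b : ℝ) ≠ 0 := hb'.ne'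
  have hM : (0 : ℝ) < S.card := by exact_mod_cast Finset.card_pos.2 ⟨x0, hx0⟩
  have hM0 : (S.card : ℝ) ≠ 0 := hM.ne'
  have hr : (0 : ℝ) ≤ 1 - 2 / (b : ℝ) := by
    rw [sub_nonneg, div_le_one hb']; exact_mod_cast hb
  let F : ℕ → α → ℝ := fun k y => (C k y : ℝ) / (b : ℝ) ^ k - 1 / (S.card : ℝ)
  have hF0 : ∑ y ∈ S, F 0 y = 0 := by
    have h1 : ∀ y ∈ S, F 0 y = (if y = x0 then (1 : ℝ) else 0) - 1 / (S.card : ℝ) := by
      intro y hy
      simp only [F, hC0 y hy, pow_zero, div_one]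
      split_ifs <;> simp
    rw [Finset.sum_congr rfl h1, Finset.sum_sub_distrib, Finset.sum_ite_eq' S x0, if_pos hx0,
      Finset.sum_const, nsmul_eq_mul]
    field_simp
    ring
  have hF0' : ∑ y ∈ S, F 0 y ^ 2 ≤ 1 := by
    have h1 : ∀ y ∈ S, F 0 y ^ 2
        = (if y = x0 then (1 - 2 / (S.card : ℝ)) else 0) + 1 / (S.card : ℝ) ^ 2 := by
      intro y hy
      simp only [F, hC0 y hy, pow_zero, div_one]
      split_ifs
      · push_cast; ring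
      · push_cast; ring
    rw [Finset.sum_congr rfl h1, Finset.sum_add_distrib, Finset.sum_ite_eq' S x0, if_pos hx0,
      Finset.sum_const, nsmul_eq_mul]
    have : (S.card : ℝ) * (1 / (S.card : ℝ) ^ 2) = 1 / (S.card : ℝ) := by
      field_simp
    rw [this]
    have h2 : 0 ≤ 1 / (S.card : ℝ) := by positivity
    have h3 : 2 / (S.card : ℝ) = 2 * (1 / (S.card : ℝ)) := by ring
    rw [h3]; linarith
  have hFs : ∀ k, ∀ y ∈ S, F (k + 1) y = (∑ v ∈ range b, F k (σ v y)) / b := by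
    intro k y hy
    simp only [F]
    rw [hC k y hy, Finset.sum_sub_distrib, Finset.sum_const, Finset.card_range, nsmul_eq_mul,
      sub_div, mul_div_cancel_left₀ _ hb0, ← Finset.sum_div, div_div, ← pow_succ]
    push_cast
    rfl
  have hall : ∀ k, ∑ y ∈ S, F k y = 0 ∧ ∑ y ∈ S, F k y ^ 2 ≤ (1 - 2 / (b : ℝ)) ^ k := by
    intro k
    induction k with
    | zero => exact ⟨hF0, by simpa using hF0'⟩
    | succ k ih =>
      obtain ⟨h1, h2⟩ := step hb1 hσ hV gap (hFs k) ih.1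
      refine ⟨h1, h2.trans ?_⟩
      rw [pow_succ, mul_comm]
      exact mul_le_mul_of_nonneg_right ih.2 hr
  have h1 := (hall (2 * t)).2
  have h2 : F (2 * t) y ^ 2 ≤ ∑ y ∈ S, F (2 * t) y ^ 2 :=
    Finset.single_le_sum (f := fun y => F (2 * t) y ^ 2) (fun z _ => sq_nonneg _) hy
  have h3 : |F (2 * t) y| ^ 2 ≤ ((1 - 2 / (b : ℝ)) ^ t) ^ 2 := by
    rw [sq_abs, ← pow_mul, mul_comm t 2]
    exact h2.trans h1
  exact abs_le_of_sq_le_sq' h3 (pow_nonneg hr t) |>.2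

/-- `S_MIX` with the hypothesis `2 ≤ b` (for `b = 1`, `S = {x0}`, `t = 1` the bound of `S_MIX` reads
`1 ≤ 1 + (-1)`, which is false). -/
theorem t_MIX :
    ∀ (α : Type) (_ : DecidableEq α) (S : Finset α) (b : ℕ) (σ : ℕ → α → α), 2 ≤ b →
    (∀ v < b, ∀ y ∈ S, σ v y ∈ S ∧ σ v (σ v y) = y) →
    (∃ V : Finset ℕ, 2 * V.card ≤ b ∧ ∀ v < b, v ∉ V → ∀ y ∈ S, σ v y = y) →
    (∀ f : α → ℝ, ∑ y ∈ S, f y = 0 →
      4 * ∑ y ∈ S, f y ^ 2 ≤ ∑ y ∈ S, ∑ v ∈ range b, (f (σ v y) - f y) ^ 2) →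
    ∀ x0 ∈ S, ∀ C : ℕ → α → ℕ, (∀ y ∈ S, C 0 y = if y = x0 then 1 else 0) →
      (∀ k, ∀ y ∈ S, C (k + 1) y = ∑ v ∈ range b, C k (σ v y)) →
      ∀ t : ℕ, ∀ y ∈ S, (C (2 * t) y : ℝ) / (b : ℝ) ^ (2 * t) ≤
        1 / (S.card : ℝ) + (1 - 2 / (b : ℝ)) ^ t := by
  intro α _ S b σ hb hσ hV gap x0 hx0 C hC0 hC t y hy
  have h := mix S b σ hb hσ hV gap x0 hx0 C hC0 hC t y hy
  have h1 := (abs_le.1 h).2
  linarith

end Pool.Agent.Helper80ST
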