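import Pool.Agent.H73.ST.Algo

/-!
# The step function is computable in polynomial time
-/

set_option autoImplicit false

namespace Pool.Agent.Helper80ST

open Pool.Agent Pool.Agent.NPC Pool.Agent.H73.ST

variable {σ : Type} [TEnc σ]

theorem poly_pow2 {n : σ → ℕ} (hn : UPoly n) : Poly (fun a => 2 ^ n a) := by
  have h1 : Poly (fun a => (List.replicate (n a) ()).map (fun _ => false)) :=
    NPC.Poly.map (l := fun a => List.replicate (n a) ()) (F := fun _ _ => false) hn
      (NPC.Poly.const false)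
  refine (NPC.Poly.valBits (NPC.Poly.append h1 (NPC.Poly.const [true]))).congr fun a => ?_
  rw [List.map_replicate, valB_replicate_false]
  simp

theorem uPoly_size {N : σ → ℕ} (hN : Poly N) : UPoly (fun a => (N a).size) := by
  have h := UPoly.length (Poly.natBits hN)
  simpa only [Nat.size_eq_bits_len] using h

theorem uPoly_m0 {N : σ → ℕ} (hN : UPoly N) : UPoly (fun a => m0 (N a)) :=
  (uPoly_size hN.toPoly).add (UPoly.const 1)

theorem pow_size_le (N : ℕ) : 2 ^ N.size ≤ 2 * N + 1 := by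
  rcases Nat.eq_zero_or_pos N with h | h
  · subst h; simp
  · have h1 : 0 < N.size := Nat.size_pos.2 h
    obtain ⟨k, hk⟩ : ∃ k, N.size = k + 1 := ⟨N.size - 1, by omega⟩
    have h2 : ¬ N.size ≤ k := by omega
    have h3 : ¬ N < 2 ^ k := fun h => h2 (Nat.size_le.2 h)
    rw [hk, pow_succ]
    omega

theorem uPoly_pow {N : σ → ℕ} (hN : UPoly N) : UPoly (fun a => 2 ^ (2 * m0 (N a))) := by
  have h2 : UPoly (fun a => 2 * m0 (N a)) := (UPoly.const 2).mul (uPoly_m0 hN)
  have h3 : UPoly (fun a => 2 * N a + 1) := ((UPoly.const 2).mul hN).add (UPoly.const 1)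
  refine UPoly.of_le (poly_pow2 h2) ((UPoly.const 4).mul (h3.mul h3)) fun a => ?_
  have h := pow_size_le (N a)
  have e : 2 ^ (2 * m0 (N a)) = 4 * (2 ^ (N a).size * 2 ^ (N a).size) := by
    rw [m0, mul_add, pow_add, two_mul, pow_add]
    ring
  rw [e]
  exact Nat.mul_le_mul_left _ (Nat.mul_le_mul h h)

theorem uPoly_tt {N s : σ → ℕ} (hN : UPoly N) (hs : UPoly s) :
    UPoly (fun a => tt (N a) (s a)) :=
  (uPoly_pow hN).mul (hN.add hs)

theorem uPoly_mm {N s : σ → ℕ} (hN : UPoly N) (hs : UPoly s) :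
    UPoly (fun a => mm (N a) (s a)) :=
  ((UPoly.const 2).mul (uPoly_m0 hN)).mul ((UPoly.const 2).mul (uPoly_tt hN hs))

theorem poly_B {N : σ → ℕ} (hN : UPoly N) : Poly (fun a => 2 ^ m0 (N a)) :=
  poly_pow2 (uPoly_m0 hN)

theorem poly_range {N : σ → ℕ} (hN : UPoly N) : Poly (fun a => List.range (N a)) := hN.range

theorem poly_setT {N k : σ → ℕ} {y : σ → List Bool} (hN : UPoly N) (hk : Poly k) (hy : Poly y) :
    Poly (fun a => setT (N a) (k a) (y a)) := by
  have h := poly_range hN
  unfold setT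
  fun_prop

theorem poly_swp {N i j : σ → ℕ} {y : σ → List Bool} (hN : UPoly N) (hi : Poly i) (hj : Poly j)
    (hy : Poly y) : Poly (fun a => swp (N a) (i a) (j a) (y a)) := by
  have h := poly_range hN
  unfold swp
  fun_prop

theorem poly_cntT {y : σ → List Bool} (hy : Poly y) : Poly (fun a => cntT (y a)) := by
  unfold cntT
  fun_prop

theorem setT_length (N k : ℕ) (y : List Bool) : (setT N k y).length = N := by
  simp [setT]

theorem grd_aux (N : ℕ) (I : List Bool → Bool) : ∀ (l : List ℕ) (y : List Bool), y.length = N →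
    (l.foldl (fun y k => if I (setT N k y) = true then setT N k y else y) y).length = N := by
  intro l
  induction l with
  | nil => intro y hy; exact hy
  | cons k l ih =>
    intro y hy
    rw [List.foldl_cons]
    apply ih
    split_ifs
    · exact setT_length _ _ _
    · exact hy

theorem poly_grd {N : σ → ℕ} {I : σ → List Bool → Bool} (hN : UPoly N)
    (hI : Poly (fun p : σ × List Bool => I p.1 p.2)) : Poly (fun a => grd (N a) (I a)) := by
  have h := poly_range hN
  have hN' := hN.toPoly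
  obtain ⟨r, hr⟩ := h.sz_le
  have h0 : Poly (fun a => (List.range (N a)).map fun _ => false) := by fun_prop
  have hs : Poly (fun p : σ × List Bool × ℕ => setT (N p.1) p.2.2 p.2.1) :=
    poly_setT (hN.comp (Poly.fst Poly.id)) (Poly.snd (Poly.snd Poly.id))
      (Poly.fst (Poly.snd Poly.id))
  have hIs : Poly (fun p : σ × List Bool × ℕ => I p.1 (setT (N p.1) p.2.2 p.2.1)) :=
    hI.comp (Poly.pair (Poly.fst Poly.id) hs)
  refine Poly.foldl (l := fun a => List.range (N a))
    (s := fun a => (List.range (N a)).map fun _ => false)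
    (F := fun a y k => if I a (setT (N a) k y) = true then setT (N a) k y else y) h h0 ?_
    (Polynomial.C 4 * r + Polynomial.C 1) ?_
  · exact Poly.ite (Poly.decide_bool hIs) hs (Poly.fst (Poly.snd Poly.id))
  · intro a k hk
    have h1 := grd_aux (N a) (I a) ((List.range (N a)).take k)
      ((List.range (N a)).map fun _ => false) (by simp)
    have h2 := sz_listBool_le (((List.range (N a)).take k).foldl
      (fun y k => if I a (setT (N a) k y) = true then setT (N a) k y else y)
      ((List.range (N a)).map fun _ => false))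
    have h3 := hr a
    have h4 := length_lt_sz (List.range (N a))
    rw [List.length_range] at h4
    simp only [Polynomial.eval_add, Polynomial.eval_mul, Polynomial.eval_C]
    omega

theorem poly_mov {N B v : σ → ℕ} {I : σ → List Bool → Bool} {y : σ → List Bool} (hN : UPoly N)
    (hB : Poly B) (hI : Poly (fun p : σ × List Bool => I p.1 p.2)) (hv : Poly v) (hy : Poly y) :
    Poly (fun a => mov (N a) (B a) (I a) (v a) (y a)) := by
  have hN' := hN.toPoly
  have hs : Poly (fun a => swp (N a) (v a / B a) (v a % B a) (y a)) :=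
    poly_swp hN (hv.div hB) (hv.mod hB) hy
  have hIs : Poly (fun a => I a (swp (N a) (v a / B a) (v a % B a) (y a))) :=
    hI.comp (Poly.pair Poly.id hs)
  exact Poly.ite (Poly.decide_and (Poly.decide_lt (hv.div hB) hN') (Poly.decide_and
    (Poly.decide_lt (hv.mod hB) hN') (Poly.decide_bool hIs))) hs hy

theorem poly_look {Z : σ → List (List Bool × ℕ)} {y : σ → List Bool} (hZ : Poly Z) (hy : Poly y) :
    Poly (fun a => look (Z a) (y a)) := by
  unfold look
  fun_prop


theorem poly_dstep {N : σ → ℕ} {I : σ → List Bool → Bool} {Z : σ → List (List Bool × ℕ)}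
    (hN : UPoly N) (hI : Poly (fun p : σ × List Bool => I p.1 p.2)) (hZ : Poly Z) :
    Poly (fun a => dstep (N a) (I a) (Z a)) := by
  have hM : Poly (fun a => List.range (2 ^ (2 * m0 (N a)))) := (uPoly_pow hN).range
  have hN2 : UPoly (fun q : (σ × (List Bool × ℕ)) × ℕ => N q.1.1) :=
    hN.comp (NPC.Poly.fst (NPC.Poly.fst NPC.Poly.id))
  have hI2 : Poly (fun q : ((σ × (List Bool × ℕ)) × ℕ) × List Bool => I q.1.1.1 q.2) :=
    hI.comp (NPC.Poly.pair (NPC.Poly.fst (NPC.Poly.fst (NPC.Poly.fst NPC.Poly.id)))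
      (NPC.Poly.snd NPC.Poly.id))
  have hmov : Poly (fun q : (σ × (List Bool × ℕ)) × ℕ =>
      mov (N q.1.1) (2 ^ m0 (N q.1.1)) (I q.1.1) q.2 q.1.2.1) :=
    poly_mov (I := fun q : (σ × (List Bool × ℕ)) × ℕ => I q.1.1) hN2 (poly_B hN2) hI2
      (NPC.Poly.snd NPC.Poly.id) (NPC.Poly.fst (NPC.Poly.snd (NPC.Poly.fst NPC.Poly.id)))
  have hlook : Poly (fun q : (σ × (List Bool × ℕ)) × ℕ =>
      look (Z q.1.1) (mov (N q.1.1) (2 ^ m0 (N q.1.1)) (I q.1.1) q.2 q.1.2.1)) :=
    poly_look (hZ.comp (NPC.Poly.fst (NPC.Poly.fst NPC.Poly.id))) hmov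
  have hin : Poly (fun q : σ × (List Bool × ℕ) => ((List.range (2 ^ (2 * m0 (N q.1)))).map
      fun v => look (Z q.1) (mov (N q.1) (2 ^ m0 (N q.1)) (I q.1) v q.2.1)).sum) :=
    NPC.Poly.sum (NPC.Poly.map (l := fun q : σ × (List Bool × ℕ) =>
      List.range (2 ^ (2 * m0 (N q.1))))
      (F := fun q v => look (Z q.1) (mov (N q.1) (2 ^ m0 (N q.1)) (I q.1) v q.2.1))
      (hM.comp (NPC.Poly.fst NPC.Poly.id)) hlook)
  exact NPC.Poly.map (l := Z) (F := fun a p => (p.1, ((List.range (2 ^ (2 * m0 (N a)))).map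
      fun v => look (Z a) (mov (N a) (2 ^ m0 (N a)) (I a) v p.1)).sum)) hZ
    (NPC.Poly.pair (NPC.Poly.fst (NPC.Poly.snd NPC.Poly.id)) hin)

theorem look_le {Z : List (List Bool × ℕ)} {X : ℕ} (h : ∀ p ∈ Z, p.2 ≤ X) (y : List Bool) :
    look Z y ≤ X := by
  unfold look
  cases hc : (((Z.filter fun p => decide (p.1 = y)).map fun p => p.2).head?) with
  | none => simp
  | some c =>
    have h1 : c ∈ ((Z.filter fun p => decide (p.1 = y)).map fun p => p.2) :=
      List.mem_of_mem_head? hc
    rw [List.mem_map] at h1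
    obtain ⟨p, hp, rfl⟩ := h1
    exact h p (List.mem_of_mem_filter hp)

theorem dstep_fst (N : ℕ) (I : List Bool → Bool) (Z : List (List Bool × ℕ)) :
    (dstep N I Z).map Prod.fst = Z.map Prod.fst := by
  unfold dstep
  rw [List.map_map]
  rfl

theorem dstep_le {N : ℕ} {I : List Bool → Bool} {Z : List (List Bool × ℕ)} {X : ℕ}
    (h : ∀ p ∈ Z, p.2 ≤ X) : ∀ p ∈ dstep N I Z, p.2 ≤ 2 ^ (2 * m0 N) * X := by
  intro p hp
  unfold dstep at hp
  rw [List.mem_map] at hp
  obtain ⟨q, hq, rfl⟩ := hp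
  have h1 := List.sum_le_card_nsmul ((List.range (2 ^ (2 * m0 N))).map fun v =>
    look Z (mov N (2 ^ m0 N) I v q.1)) X (by
      intro x hx
      rw [List.mem_map] at hx
      obtain ⟨v, _, rfl⟩ := hx
      exact look_le h _)
  simpa using h1

theorem iter_fst (N : ℕ) (I : List Bool → Bool) (k : ℕ) (Z : List (List Bool × ℕ)) :
    ((dstep N I)^[k] Z).map Prod.fst = Z.map Prod.fst := by
  induction k with
  | zero => rfl
  | succ k ih => rw [Function.iterate_succ_apply', dstep_fst, ih]

theorem iter_le {N : ℕ} {I : List Bool → Bool} {Z : List (List Bool × ℕ)}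
    (h : ∀ p ∈ Z, p.2 ≤ 1) (k : ℕ) : ∀ p ∈ (dstep N I)^[k] Z, p.2 ≤ 2 ^ (2 * m0 N * k) := by
  induction k with
  | zero => simpa using h
  | succ k ih =>
    rw [Function.iterate_succ_apply', mul_add, mul_one, add_comm, pow_add]
    exact dstep_le ih

theorem sz_table_le : ∀ (Z : List (List Bool × ℕ)) (B : ℕ), (∀ p ∈ Z, sz p.2 ≤ B) →
    sz Z ≤ sz (Z.map Prod.fst) + Z.length * (B + 1) := by
  intro Z B
  induction Z with
  | nil => intro _; simp
  | cons p Z ih =>
    intro h
    have h1 := ih fun q hq => h q (List.mem_cons_of_mem _ hq)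
    have h2 := h p List.mem_cons_self
    obtain ⟨y, c⟩ := p
    simp only [List.map_cons, sz_list_cons, sz_pair, List.length_cons, add_mul, one_mul]
    simp only at h2
    omega

theorem poly_bss {N : σ → ℕ} {I : σ → List Bool → Bool} {L : σ → List (List Bool)}
    (hN : UPoly N) (hI : Poly (fun p : σ × List Bool => I p.1 p.2)) (hL : Poly L) :
    Poly (fun a => bss (N a) (I a) (L a)) := by
  have hg : Poly (fun a => cntT (grd (N a) (I a))) := poly_cntT (poly_grd hN hI)
  exact NPC.Poly.filter (l := L) (p := fun a y => I a y && decide (cntT y = cntT (grd (N a) (I a))))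
    hL (NPC.Poly.and hI (NPC.Poly.decide_eq (poly_cntT (NPC.Poly.snd NPC.Poly.id))
      (hg.comp (NPC.Poly.fst NPC.Poly.id))))

theorem poly_tab {N s : σ → ℕ} {I : σ → List Bool → Bool} {L : σ → List (List Bool)}
    (hN : UPoly N) (hs : UPoly s) (hI : Poly (fun p : σ × List Bool => I p.1 p.2)) (hL : Poly L) :
    Poly (fun a => tab (N a) (s a) (I a) (L a)) := by
  have hb := poly_bss hN hI hL
  have hg : Poly (fun a => grd (N a) (I a)) := poly_grd hN hI
  have hinit : Poly (fun a => (bss (N a) (I a) (L a)).map fun y =>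
      (y, if y = grd (N a) (I a) then 1 else 0)) :=
    NPC.Poly.map (l := fun a => bss (N a) (I a) (L a))
      (F := fun a y => (y, if y = grd (N a) (I a) then 1 else 0)) hb
      (NPC.Poly.pair (NPC.Poly.snd NPC.Poly.id) (NPC.Poly.ite (NPC.Poly.decide_eq
        (NPC.Poly.snd NPC.Poly.id) (hg.comp (NPC.Poly.fst NPC.Poly.id))) (NPC.Poly.const 1)
        (NPC.Poly.const 0)))
  have ht : UPoly (fun a => 2 * tt (N a) (s a)) := (UPoly.const 2).mul (uPoly_tt hN hs)
  have hm : UPoly (fun a => 2 * m0 (N a)) := (UPoly.const 2).mul (uPoly_m0 hN)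
  obtain ⟨r1, hr1⟩ := hb.sz_le
  obtain ⟨r2, hr2⟩ := NPC.Poly.sz_le (f := fun a => List.replicate (2 * m0 (N a)) ()) hm
  obtain ⟨r3, hr3⟩ := NPC.Poly.sz_le (f := fun a => List.replicate (2 * tt (N a) (s a)) ()) ht
  have hd : Poly (fun p : σ × List (List Bool × ℕ) => dstep (N p.1) (I p.1) p.2) :=
    poly_dstep (I := fun p : σ × List (List Bool × ℕ) => I p.1)
      (hN.comp (NPC.Poly.fst NPC.Poly.id))
      (hI.comp (NPC.Poly.pair (NPC.Poly.fst (NPC.Poly.fst NPC.Poly.id))
        (NPC.Poly.snd NPC.Poly.id))) (NPC.Poly.snd NPC.Poly.id)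
  refine (NPC.Poly.iterLen (l := fun a => List.replicate (2 * tt (N a) (s a)) ())
    (s := fun a => (bss (N a) (I a) (L a)).map fun y =>
      (y, if y = grd (N a) (I a) then 1 else 0))
    (F := fun a => dstep (N a) (I a)) ht hinit hd
    (r1 + r1 * (Polynomial.C 4 * (r2 * r3 + Polynomial.C 1) + Polynomial.C 2)) ?_).congr
      fun a => ?_
  · intro a k hk
    rw [List.length_replicate] at hk
    set Z0 : List (List Bool × ℕ) := (bss (N a) (I a) (L a)).map fun y =>
      (y, if y = grd (N a) (I a) then 1 else 0) with hZ0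
    have h0 : ∀ p ∈ Z0, p.2 ≤ 1 := by
      intro p hp
      rw [hZ0, List.mem_map] at hp
      obtain ⟨y, _, rfl⟩ := hp
      simp only
      split_ifs <;> omega
    have hfst : Z0.map Prod.fst = bss (N a) (I a) (L a) := by
      rw [hZ0, List.map_map]
      exact List.map_id _
    have h1 := iter_le (N := N a) (I := I a) h0 k
    have h2 := iter_fst (N a) (I a) k Z0
    have hlen : ((dstep (N a) (I a))^[k] Z0).length = (bss (N a) (I a) (L a)).length := by
      have := congrArg List.length h2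
      rw [List.length_map, List.length_map] at this
      have h7 := congrArg List.length hfst
      rw [List.length_map] at h7
      omega
    have h3 := sz_table_le ((dstep (N a) (I a))^[k] Z0) (4 * (2 * m0 (N a) * k + 1) + 1) (by
      intro p hp
      have h4 := h1 p hp
      have h5 := sz_nat_le p.2
      have h6 : p.2.size ≤ 2 * m0 (N a) * k + 1 := by
        rw [Nat.size_le, pow_succ]
        have : 0 < 2 ^ (2 * m0 (N a) * k) := by positivity
        omega
      omega)
    rw [h2, hfst, hlen] at h3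
    have e1 := hr1 a
    have e2 := hr2 a
    have e3 := hr3 a
    have e4 := length_lt_sz (bss (N a) (I a) (L a))
    have e5 := length_lt_sz (List.replicate (2 * m0 (N a)) ())
    have e6 := length_lt_sz (List.replicate (2 * tt (N a) (s a)) ())
    rw [List.length_replicate] at e5 e6
    refine h3.trans ?_
    simp only [Polynomial.eval_add, Polynomial.eval_mul, Polynomial.eval_C]
    refine Nat.add_le_add e1 (Nat.mul_le_mul (by omega) ?_)
    have : 2 * m0 (N a) * k ≤ Polynomial.eval (sz a) r2 * Polynomial.eval (sz a) r3 :=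
      Nat.mul_le_mul (by omega) (by omega)
    omega
  · rw [List.length_replicate]
    rfl

theorem srch_aux (w : ℕ → ℕ) (U : ℕ) (Z0 : List (List Bool × ℕ)) :
    ∀ (Z : List (List Bool × ℕ)) (acc : ℕ × Option (List Bool)), (∀ p ∈ Z, p ∈ Z0) →
      acc.1 ≤ U → (∀ y, acc.2 = some y → sz y ≤ sz Z0) →
      (Z.foldl (fun (acc : ℕ × Option (List Bool)) p =>
        if acc.2.isSome = true then acc
        else if acc.1 < w p.2 then (acc.1, some p.1) else (acc.1 - w p.2, none)) acc).1 ≤ U ∧
      (∀ y, (Z.foldl (fun (acc : ℕ × Option (List Bool)) p =>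
        if acc.2.isSome = true then acc
        else if acc.1 < w p.2 then (acc.1, some p.1) else (acc.1 - w p.2, none)) acc).2 = some y →
        sz y ≤ sz Z0) := by
  intro Z
  induction Z with
  | nil => intro acc _ h1 h2; exact ⟨h1, h2⟩
  | cons p Z ih =>
    intro acc h0 h1 h2
    rw [List.foldl_cons]
    apply ih
    · exact fun q hq => h0 q (List.mem_cons_of_mem _ hq)
    · split_ifs
      · exact h1
      · exact h1
      · exact (Nat.sub_le _ _).trans h1
    · split_ifs with c1 c2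
      · exact h2
      · intro y hy
        simp only [Option.some.injEq] at hy
        subst hy
        have h3 := sz_le_of_mem (h0 p List.mem_cons_self)
        obtain ⟨y, c⟩ := p
        rw [sz_pair] at h3
        simp only
        omega
      · intro y hy
        simp at hy

theorem poly_srch {w : σ → ℕ → ℕ} {Z : σ → List (List Bool × ℕ)} {U : σ → ℕ}
    (hw : Poly (fun p : σ × ℕ => w p.1 p.2)) (hZ : Poly Z) (hU : Poly U) :
    Poly (fun a => srch (w a) (Z a) (U a)) := by
  obtain ⟨r1, hr1⟩ := hZ.sz_le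
  obtain ⟨r2, hr2⟩ := hU.sz_le
  have hw2 : Poly (fun p : σ × (ℕ × Option (List Bool)) × (List Bool × ℕ) => w p.1 p.2.2.2) :=
    hw.comp (NPC.Poly.pair (NPC.Poly.fst NPC.Poly.id)
      (NPC.Poly.snd (NPC.Poly.snd (NPC.Poly.snd NPC.Poly.id))))
  refine NPC.Poly.snd (NPC.Poly.foldl (l := Z)
    (s := fun a => ((U a, none) : ℕ × Option (List Bool)))
    (F := fun a acc p => if acc.2.isSome = true then acc
        else if acc.1 < w a p.2 then (acc.1, some p.1) else (acc.1 - w a p.2, none)) hZ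
    (NPC.Poly.pair hU (NPC.Poly.const none)) ?_
    (Polynomial.C 2 * r2 + r1 + Polynomial.C 10) ?_)
  · have hsome : Poly (fun p : σ × (ℕ × Option (List Bool)) × (List Bool × ℕ) =>
        p.2.1.2.isSome) :=
      (NPC.Poly.optElim (o := fun p : σ × (ℕ × Option (List Bool)) × (List Bool × ℕ) => p.2.1.2)
        (g := fun _ => false) (h := fun _ _ => true)
        (NPC.Poly.snd (NPC.Poly.fst (NPC.Poly.snd NPC.Poly.id))) (NPC.Poly.const _)
        (NPC.Poly.const _)).congr fun p => by
          obtain ⟨a, ⟨u, o⟩, b⟩ := p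
          cases o <;> rfl
    have hacc : Poly (fun p : σ × (ℕ × Option (List Bool)) × (List Bool × ℕ) => p.2.1) :=
      NPC.Poly.fst (NPC.Poly.snd NPC.Poly.id)
    exact NPC.Poly.ite (NPC.Poly.decide_bool hsome) hacc
      (NPC.Poly.ite (NPC.Poly.decide_lt (NPC.Poly.fst hacc) hw2)
        (NPC.Poly.pair (NPC.Poly.fst hacc) (NPC.Poly.some
          (NPC.Poly.fst (NPC.Poly.snd (NPC.Poly.snd NPC.Poly.id)))))
        (NPC.Poly.pair (NPC.Poly.sub (NPC.Poly.fst hacc) hw2) (NPC.Poly.const none)))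
  · intro a k hk
    obtain ⟨h1, h2⟩ := srch_aux (w a) (U a) (Z a) ((Z a).take k) (U a, none)
      (fun p hp => List.mem_of_mem_take hp) le_rfl (by intro y hy; simp at hy)
    set R := ((Z a).take k).foldl (fun (acc : ℕ × Option (List Bool)) p =>
        if acc.2.isSome = true then acc
        else if acc.1 < w a p.2 then (acc.1, some p.1) else (acc.1 - w a p.2, none))
        (U a, none) with hR
    have h3 := sz_nat_mono_le h1
    have h4 := hr1 a
    have h5 := hr2 a
    obtain ⟨u, o⟩ := R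
    simp only [Polynomial.eval_add, Polynomial.eval_mul, Polynomial.eval_C]
    cases o with
    | none =>
      rw [sz_pair, sz_none]
      simp only at h3
      omega
    | some y =>
      have h6 := h2 y rfl
      rw [sz_pair, sz_some]
      simp only at h3
      omega

theorem poly_pick {N s U : σ → ℕ} {I : σ → List Bool → Bool} {L : σ → List (List Bool)}
    (hN : UPoly N) (hs : UPoly s) (hI : Poly (fun p : σ × List Bool => I p.1 p.2)) (hL : Poly L)
    (hU : Poly U) : Poly (fun a => pick (N a) (s a) (I a) (L a) (U a)) := by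
  have hb := poly_bss hN hI hL
  have hw : Poly (fun p : σ × ℕ => 2 ^ (mm (N p.1) (s p.1) + s p.1) /
      (bss (N p.1) (I p.1) (L p.1)).length - (2 ^ s p.1 - 1) * p.2) := by
    have h1 : Poly (fun a => 2 ^ (mm (N a) (s a) + s a) / (bss (N a) (I a) (L a)).length) :=
      NPC.Poly.div (poly_pow2 ((uPoly_mm hN hs).add hs)) (NPC.Poly.length hb)
    have h2 : Poly (fun a => 2 ^ s a - 1) := NPC.Poly.sub (poly_pow2 hs) (NPC.Poly.const 1)
    exact NPC.Poly.sub (h1.comp (NPC.Poly.fst NPC.Poly.id))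
      (NPC.Poly.mul (h2.comp (NPC.Poly.fst NPC.Poly.id)) (NPC.Poly.snd NPC.Poly.id))
  exact poly_srch (w := fun a c => 2 ^ (mm (N a) (s a) + s a) /
      (bss (N a) (I a) (L a)).length - (2 ^ s a - 1) * c) hw (poly_tab hN hs hI hL) hU


section Next

variable {α β : Type} [TEnc α] [TEnc β]

/-- The step function, with eliminators instead of pattern matching. -/
def next2 (nf : α → ℕ) (ind : α × List Bool → Bool) (out : α × List Bool → β)
    (q : ((α × List Unit) × Tag) × ℕ) : (((α × List Unit) × Tag) × List Unit) ⊕ β :=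
  Sum.elim
    (fun b => if b = true then
        (if q.2 = 0 then Sum.inl ((q.1.1, Sum.inr (Sum.inr (Sum.inl ([[]], un (nf q.1.1.1))))), [])
        else Sum.inl ((q.1.1, Sum.inr (Sum.inl (grd (nf q.1.1.1) (fun y => ind (q.1.1.1, y)),
          un (2 * tt (nf q.1.1.1) q.1.1.2.length - 1)))), un (2 * m0 (nf q.1.1.1))))
      else Sum.inl ((q.1.1, Sum.inl true), q.1.1.2))
    (fun t => Sum.elim
      (fun w => if w.2 = [] then
          Sum.inr (out (q.1.1.1, mov (nf q.1.1.1) (2 ^ m0 (nf q.1.1.1))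
            (fun y => ind (q.1.1.1, y)) q.2 w.1))
        else Sum.inl ((q.1.1, Sum.inr (Sum.inl (mov (nf q.1.1.1) (2 ^ m0 (nf q.1.1.1))
          (fun y => ind (q.1.1.1, y)) q.2 w.1, w.2.tail))), un (2 * m0 (nf q.1.1.1))))
      (fun t2 => Sum.elim
        (fun w => if w.2 = [] then
            Sum.inl ((q.1.1, Sum.inr (Sum.inr (Sum.inr w.1))), un (mm (nf q.1.1.1) q.1.1.2.length))
          else Sum.inl ((q.1.1, Sum.inr (Sum.inr (Sum.inl
            ((w.1.map fun y => false :: y) ++ (w.1.map fun y => true :: y), w.2.tail)))), []))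
        (fun L => Option.elim (pick (nf q.1.1.1) q.1.1.2.length (fun y => ind (q.1.1.1, y)) L q.2)
          (Sum.inl ((q.1.1, Sum.inl false), []))
          (fun y => Sum.inr (out (q.1.1.1, y))))
        t2)
      t)
    q.1.2

omit [TEnc α] [TEnc β] in
theorem next2_eq (nf : α → ℕ) (ind : α × List Bool → Bool) (out : α × List Bool → β)
    (q : ((α × List Unit) × Tag) × ℕ) : next2 nf ind out q = next nf ind out q := by
  obtain ⟨⟨⟨a, s⟩, t⟩, v⟩ := q
  rcases t with b | ⟨y, r⟩ | ⟨L, u⟩ | L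
  · cases b
    · rfl
    · rfl
  · cases r <;> rfl
  · cases u <;> rfl
  · simp only [next2, next, Sum.elim_inr]
    cases pick (nf a) s.length (fun y => ind (a, y)) L v <;> rfl

theorem poly_b1 {σ : Type} [TEnc σ] {nf : α → ℕ} {ind : α × List Bool → Bool}
    (hnf : UPoly nf) (hind : Poly ind) {x : σ → α × List Unit} {b : σ → Bool} {v : σ → ℕ}
    (hx : Poly x) (hb : Poly b) (hv : Poly v) :
    Poly (fun p => (if b p = true then
        (if v p = 0 then Sum.inl ((x p, Sum.inr (Sum.inr (Sum.inl ([[]], un (nf (x p).1))))), [])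
        else Sum.inl ((x p, Sum.inr (Sum.inl (grd (nf (x p).1) (fun y => ind ((x p).1, y)),
          un (2 * tt (nf (x p).1) (x p).2.length - 1)))), un (2 * m0 (nf (x p).1))))
      else Sum.inl ((x p, Sum.inl true), (x p).2) :
        (((α × List Unit) × Tag) × List Unit) ⊕ β)) := by
  have hN : UPoly (fun p => nf (x p).1) := hnf.comp (NPC.Poly.fst hx)
  have hs : UPoly (fun p => (x p).2.length) := UPoly.length (NPC.Poly.snd hx)
  have hI : Poly (fun p : σ × List Bool => ind ((x p.1).1, p.2)) :=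
    hind.comp (NPC.Poly.pair (NPC.Poly.fst (hx.comp (NPC.Poly.fst NPC.Poly.id)))
      (NPC.Poly.snd NPC.Poly.id))
  have hg : Poly (fun p => grd (nf (x p).1) (fun y => ind ((x p).1, y))) :=
    poly_grd (I := fun p y => ind ((x p).1, y)) hN hI
  have ht : Poly (fun p => un (2 * tt (nf (x p).1) (x p).2.length - 1)) := by
    have h2 : UPoly (fun p => 2 * tt (nf (x p).1) (x p).2.length) :=
      (UPoly.const 2).mul (uPoly_tt hN hs)
    exact UPoly.of_le (NPC.Poly.sub h2.toPoly (NPC.Poly.const 1)) h2 fun a => Nat.sub_le _ _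
  have hm : Poly (fun p => un (2 * m0 (nf (x p).1))) := (UPoly.const 2).mul (uPoly_m0 hN)
  have hu : Poly (fun p => un (nf (x p).1)) := hN
  refine NPC.Poly.ite (NPC.Poly.decide_bool hb) (NPC.Poly.ite (NPC.Poly.decide_eq hv
    (NPC.Poly.const 0)) (NPC.Poly.inl (NPC.Poly.pair (NPC.Poly.pair hx (NPC.Poly.inr
      (NPC.Poly.inr (NPC.Poly.inl (NPC.Poly.pair (NPC.Poly.const _) hu))))) (NPC.Poly.const _)))
    (NPC.Poly.inl (NPC.Poly.pair (NPC.Poly.pair hx (NPC.Poly.inr
      (NPC.Poly.inl (NPC.Poly.pair hg ht)))) hm)))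
    (NPC.Poly.inl (NPC.Poly.pair (NPC.Poly.pair hx (NPC.Poly.const _)) (NPC.Poly.snd hx)))

theorem poly_b2 {σ : Type} [TEnc σ] {nf : α → ℕ} {ind : α × List Bool → Bool}
    {out : α × List Bool → β}
    (hnf : UPoly nf) (hind : Poly ind) (hout : Poly out) {x : σ → α × List Unit}
    {w : σ → List Bool × List Unit} {v : σ → ℕ}
    (hx : Poly x) (hw : Poly w) (hv : Poly v) :
    Poly (fun p => (if (w p).2 = [] then
          Sum.inr (out ((x p).1, mov (nf (x p).1) (2 ^ m0 (nf (x p).1))
            (fun y => ind ((x p).1, y)) (v p) (w p).1))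
        else Sum.inl ((x p, Sum.inr (Sum.inl (mov (nf (x p).1) (2 ^ m0 (nf (x p).1))
          (fun y => ind ((x p).1, y)) (v p) (w p).1, (w p).2.tail))), un (2 * m0 (nf (x p).1))) :
        (((α × List Unit) × Tag) × List Unit) ⊕ β)) := by
  have hN : UPoly (fun p => nf (x p).1) := hnf.comp (NPC.Poly.fst hx)
  have hI : Poly (fun p : σ × List Bool => ind ((x p.1).1, p.2)) :=
    hind.comp (NPC.Poly.pair (NPC.Poly.fst (hx.comp (NPC.Poly.fst NPC.Poly.id)))
      (NPC.Poly.snd NPC.Poly.id))
  have hmov : Poly (fun p => mov (nf (x p).1) (2 ^ m0 (nf (x p).1))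
            (fun y => ind ((x p).1, y)) (v p) (w p).1) :=
    poly_mov (I := fun p y => ind ((x p).1, y)) hN (poly_B hN) hI hv (NPC.Poly.fst hw)
  have hm : Poly (fun p => un (2 * m0 (nf (x p).1))) := (UPoly.const 2).mul (uPoly_m0 hN)
  exact NPC.Poly.ite (NPC.Poly.decide_eq (NPC.Poly.snd hw) (NPC.Poly.const []))
    (NPC.Poly.inr (hout.comp (NPC.Poly.pair (NPC.Poly.fst hx) hmov)))
    (NPC.Poly.inl (NPC.Poly.pair (NPC.Poly.pair hx (NPC.Poly.inr (NPC.Poly.inl
      (NPC.Poly.pair hmov (NPC.Poly.tail (NPC.Poly.snd hw)))))) hm))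

theorem poly_b3 {σ : Type} [TEnc σ] {nf : α → ℕ}
    (hnf : UPoly nf) {x : σ → α × List Unit}
    {w : σ → List (List Bool) × List Unit}
    (hx : Poly x) (hw : Poly w) :
    Poly (fun p => (if (w p).2 = [] then
            Sum.inl ((x p, Sum.inr (Sum.inr (Sum.inr (w p).1))), un (mm (nf (x p).1) (x p).2.length))
          else Sum.inl ((x p, Sum.inr (Sum.inr (Sum.inl
            (((w p).1.map fun y => false :: y) ++ ((w p).1.map fun y => true :: y),
              (w p).2.tail)))), []) :
        (((α × List Unit) × Tag) × List Unit) ⊕ β)) := by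
  have hN : UPoly (fun p => nf (x p).1) := hnf.comp (NPC.Poly.fst hx)
  have hs : UPoly (fun p => (x p).2.length) := UPoly.length (NPC.Poly.snd hx)
  have hm : Poly (fun p => un (mm (nf (x p).1) (x p).2.length)) := uPoly_mm hN hs
  have hw1 : Poly (fun p => (w p).1) := NPC.Poly.fst hw
  have hl : Poly (fun p => ((w p).1.map fun y => false :: y) ++
      ((w p).1.map fun y => true :: y)) :=
    NPC.Poly.append
      (NPC.Poly.map (F := fun _ y => false :: y) hw1 (NPC.Poly.cons (NPC.Poly.const _)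
        (NPC.Poly.snd NPC.Poly.id)))
      (NPC.Poly.map (F := fun _ y => true :: y) hw1 (NPC.Poly.cons (NPC.Poly.const _)
        (NPC.Poly.snd NPC.Poly.id)))
  exact NPC.Poly.ite (NPC.Poly.decide_eq (NPC.Poly.snd hw) (NPC.Poly.const []))
    (NPC.Poly.inl (NPC.Poly.pair (NPC.Poly.pair hx (NPC.Poly.inr (NPC.Poly.inr
      (NPC.Poly.inr hw1)))) hm))
    (NPC.Poly.inl (NPC.Poly.pair (NPC.Poly.pair hx (NPC.Poly.inr (NPC.Poly.inr
      (NPC.Poly.inl (NPC.Poly.pair hl (NPC.Poly.tail (NPC.Poly.snd hw))))))) (NPC.Poly.const _)))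

theorem poly_b4 {σ : Type} [TEnc σ] {nf : α → ℕ} {ind : α × List Bool → Bool}
    {out : α × List Bool → β}
    (hnf : UPoly nf) (hind : Poly ind) (hout : Poly out) {x : σ → α × List Unit}
    {L : σ → List (List Bool)} {v : σ → ℕ}
    (hx : Poly x) (hL : Poly L) (hv : Poly v) :
    Poly (fun p => (Option.elim (pick (nf (x p).1) (x p).2.length (fun y => ind ((x p).1, y))
      (L p) (v p)) (Sum.inl ((x p, Sum.inl false), [])) (fun y => Sum.inr (out ((x p).1, y))) :
        (((α × List Unit) × Tag) × List Unit) ⊕ β)) := by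
  have hN : UPoly (fun p => nf (x p).1) := hnf.comp (NPC.Poly.fst hx)
  have hs : UPoly (fun p => (x p).2.length) := UPoly.length (NPC.Poly.snd hx)
  have hI : Poly (fun p : σ × List Bool => ind ((x p.1).1, p.2)) :=
    hind.comp (NPC.Poly.pair (NPC.Poly.fst (hx.comp (NPC.Poly.fst NPC.Poly.id)))
      (NPC.Poly.snd NPC.Poly.id))
  have hp : Poly (fun p => pick (nf (x p).1) (x p).2.length (fun y => ind ((x p).1, y))
      (L p) (v p)) :=
    poly_pick (I := fun p y => ind ((x p).1, y)) hN hs hI hL hv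
  have ho : Poly (fun q : σ × List Bool => out ((x q.1).1, q.2)) :=
    hout.comp (NPC.Poly.pair (NPC.Poly.fst (hx.comp (NPC.Poly.fst NPC.Poly.id)))
      (NPC.Poly.snd NPC.Poly.id))
  exact NPC.Poly.optElim (h := fun p y => Sum.inr (out ((x p).1, y))) hp
    (NPC.Poly.inl (NPC.Poly.pair (NPC.Poly.pair hx (NPC.Poly.const _)) (NPC.Poly.const _)))
    (NPC.Poly.inr ho)

theorem t_ALGP : S_ALGP := by
  intro α β _ _ nf ind out hnf hind hout
  refine NPC.Poly.congr (f := next2 nf ind out) ?_ (next2_eq nf ind out)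
  have e1 : Poly (fun q : ((α × List Unit) × Tag) × ℕ => q.1.1) :=
    NPC.Poly.fst (NPC.Poly.fst NPC.Poly.id)
  have e2 : Poly (fun q : ((α × List Unit) × Tag) × ℕ => q.1.2) :=
    NPC.Poly.snd (NPC.Poly.fst NPC.Poly.id)
  have e3 : Poly (fun q : ((α × List Unit) × Tag) × ℕ => q.2) := NPC.Poly.snd NPC.Poly.id
  refine NPC.Poly.sumElim e2
    (poly_b1 (x := fun p : (((α × List Unit) × Tag) × ℕ) × Bool => p.1.1.1)
      (b := fun p => p.2) (v := fun p => p.1.2) hnf hind (e1.comp (NPC.Poly.fst NPC.Poly.id))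
      (NPC.Poly.snd NPC.Poly.id) (e3.comp (NPC.Poly.fst NPC.Poly.id))) ?_
  refine NPC.Poly.sumElim (NPC.Poly.snd NPC.Poly.id)
    (poly_b2 (x := fun p : ((((α × List Unit) × Tag) × ℕ) × _) × (List Bool × List Unit) =>
        p.1.1.1.1)
      (w := fun p => p.2) (v := fun p => p.1.1.2) hnf hind hout
      (e1.comp (NPC.Poly.fst (NPC.Poly.fst NPC.Poly.id))) (NPC.Poly.snd NPC.Poly.id)
      (e3.comp (NPC.Poly.fst (NPC.Poly.fst NPC.Poly.id)))) ?_
  refine NPC.Poly.sumElim (NPC.Poly.snd NPC.Poly.id)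
    (poly_b3 (x := fun p : (((((α × List Unit) × Tag) × ℕ) × _) × _) ×
        (List (List Bool) × List Unit) => p.1.1.1.1.1)
      (w := fun p => p.2) hnf
      (e1.comp (NPC.Poly.fst (NPC.Poly.fst (NPC.Poly.fst NPC.Poly.id))))
      (NPC.Poly.snd NPC.Poly.id)) ?_
  exact poly_b4 (x := fun p : (((((α × List Unit) × Tag) × ℕ) × _) × _) × List (List Bool) =>
      p.1.1.1.1.1) (L := fun p => p.2) (v := fun p => p.1.1.1.2) hnf hind hout
    (e1.comp (NPC.Poly.fst (NPC.Poly.fst (NPC.Poly.fst NPC.Poly.id)))) (NPC.Poly.snd NPC.Poly.id)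
    (e3.comp (NPC.Poly.fst (NPC.Poly.fst (NPC.Poly.fst NPC.Poly.id))))

end Next

end Pool.Agent.Helper80ST
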